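import Pool.Agent.Lib.MP_17d4d1_pr.S.Iface
import Pool.Agent.Lib.MP_17d4d1_pr.Reduce

set_option autoImplicit false
set_option linter.unusedSectionVars false

/-!
# Module USTAR (MP_17d4d1_pr, second hand-in) (helper43)
-/

namespace Pool.Agent.Lib.MP_17d4d1_pr.S.H43

open Finset Pool.Agent.Lib.MP_17d4d1_pr

variable {X : Type} [Fintype X] [DecidableEq X]

omit [DecidableEq X] in
theorem US_comm (w f g h : Finset X → ℝ) : US w f g h = US w g f h := by
  unfold US
  rw [mul_comm f g]
  ring

/-- the first functional is linear in the first function -/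
theorem US_linear (w f g h : Finset X → ℝ) : US w f g h =
    ∑ A, f A * (w A * ((1 + Ex w h) * (g A * h A) - Ex w h * g A
      - h A * Ex w (g * h))) := by
  have e1 : ∑ A, f A * (w A * ((1 + Ex w h) * (g A * h A) - Ex w h * g A
      - h A * Ex w (g * h))) =
      (1 + Ex w h) * (∑ A, w A * (f A * g A * h A)) - Ex w h * (∑ A, w A * (f A * g A))
        - (∑ A, w A * (f A * h A)) * Ex w (g * h) := by
    rw [sum_mul, mul_sum, mul_sum, ← sum_sub_distrib, ← sum_sub_distrib]
    exact sum_congr rfl fun A _ => by ring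
  rw [e1]
  rfl

/-- the indicator of an upper level set -/
theorem ind_level {f : Finset X → ℝ} (hf : Inc f) (s : ℝ) :
    Ind fun A => if s ≤ f A then (1 : ℝ) else 0 where
  val A := by
    by_cases h : s ≤ f A
    · right; rw [if_pos h]
    · left; rw [if_neg h]
  mono A B hAB := by
    by_cases h : s ≤ f A
    · have h2 : s ≤ f B := h.trans (hf.mono hAB)
      simp only [if_pos h, if_pos h2]
      exact le_rfl
    · simp only [if_neg h]
      split_ifs <;> norm_num

/-- reduction to indicators in the first function -/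
theorem US_layer (w f g h : Finset X → ℝ) (hf : Inc f)
    (H : ∀ u : Finset X → ℝ, Ind u → 0 ≤ US w u g h) : 0 ≤ US w f g h := by
  rw [US_linear]
  refine layer _ _ f hf.nn rfl fun s _ => ?_
  have := H _ (ind_level hf s)
  rwa [US_linear] at this

theorem ind_comp {κ : Type} [DecidableEq κ] {u : Finset X → ℝ} (hu : Ind u)
    {Φ : Finset κ → Finset X} (hΦ : Monotone Φ) : Ind (u ∘ Φ) where
  val A := hu.val (Φ A)
  mono _ _ hAB := hu.mono (hΦ hAB)

/-- module USTAR -/
theorem ustar (h1 : REPR_S) (h2 : PROD_S) : USTAR_S := by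
  intro X _ _ w f g h hw hf hg hh
  refine US_layer w f g h hf fun u hu => ?_
  rw [US_comm]
  refine US_layer w g u h hg fun v hv => ?_
  obtain ⟨κ, i1, i2, r, Φ, hr0, hr1, hΦ, hE⟩ := h1 X w hw
  have := h2 κ r hr0 hr1 (v ∘ Φ) (u ∘ Φ) (h ∘ Φ) (ind_comp hv hΦ) (ind_comp hu hΦ)
    (ind_comp hh hΦ)
  unfold US at this ⊢
  rw [hE, hE, hE, hE, hE]
  exact this

end Pool.Agent.Lib.MP_17d4d1_pr.S.H43
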